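import Mathlib
import Pool.Agent.Helper35.PI.St2

/-!
Module G8 of the project PI (problem MP_b2fa09_gt): jets of `|H|²` of a graph.
-/

namespace Helper62.PI

open Helper35.PI
open scoped ContDiff Manifold Topology ENNReal BigOperators
open MeasureTheory Set Filter

variable {n N : ℕ}

/-- a double contraction with the identity -/
lemma sum_delta4 (f : Fin n → Fin n → Fin n → Fin n → ℝ) :
    ∑ i, ∑ j, ∑ k, ∑ l, ((if i = j then (1 : ℝ) else 0) * (if k = l then (1 : ℝ) else 0)) * f i j k l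
      = ∑ i, ∑ k, f i i k k := by
  simp [ite_mul, Finset.sum_ite_eq]

lemma inner_sum_sum (x y : Fin n → EE N) :
    (inner ℝ (∑ i, x i) (∑ k, y k) : ℝ) = ∑ i, ∑ k, inner ℝ (x i) (y k) := by
  rw [sum_inner]
  exact Finset.sum_congr rfl fun i _ => inner_sum _ _ _

lemma swap22 (F : Fin n → Fin n → Fin n → Fin n → ℝ) :
    ∑ i, ∑ k, ∑ a, ∑ b, F i k a b = ∑ a, ∑ b, ∑ i, ∑ k, F i k a b := by
  have h1 : ∑ i, ∑ k, ∑ a, ∑ b, F i k a b
      = ∑ x : Fin n × Fin n, ∑ y : Fin n × Fin n, F x.1 x.2 y.1 y.2 := by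
    simp only [Fintype.sum_prod_type]
  have h2 : ∑ a, ∑ b, ∑ i, ∑ k, F i k a b
      = ∑ y : Fin n × Fin n, ∑ x : Fin n × Fin n, F x.1 x.2 y.1 y.2 := by
    simp only [Fintype.sum_prod_type]
  rw [h1, h2, Finset.sum_comm]

lemma swap21 (F : Fin n → Fin n → Fin n → ℝ) :
    ∑ i, ∑ k, ∑ a, F i k a = ∑ a, ∑ i, ∑ k, F i k a := by
  have h1 : ∑ i, ∑ k, ∑ a, F i k a
      = ∑ x : Fin n × Fin n, ∑ y : Fin n, F x.1 x.2 y := by
    simp only [Fintype.sum_prod_type]
  have h2 : ∑ a, ∑ i, ∑ k, F i k a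
      = ∑ y : Fin n, ∑ x : Fin n × Fin n, F x.1 x.2 y := by
    simp only [Fintype.sum_prod_type]
  rw [h1, h2, Finset.sum_comm]

lemma Yf_eq (x₀ : EE N) (L : EE n →ₗᵢ[ℝ] EE N) (u : EE n × ℝ → EE N) :
    Yf x₀ L u = fun z => ∑ i, ∑ j, ∑ k, ∑ l,
      (GIf x₀ L u i j z * GIf x₀ L u k l z) * Rf x₀ L u i j k l z := by
  funext z
  unfold Yf mcv
  rw [← real_inner_self_eq_norm_sq, sum_inner]
  refine Finset.sum_congr rfl fun i _ => ?_
  rw [sum_inner]
  refine Finset.sum_congr rfl fun j _ => ?_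
  rw [inner_sum]
  refine Finset.sum_congr rfl fun k _ => ?_
  rw [inner_sum]
  refine Finset.sum_congr rfl fun l _ => ?_
  rw [real_inner_smul_left, real_inner_smul_right]
  unfold GIf Rf
  ring

/-- jets of a quadruple sum -/
lemma jets_sum4 (hJA : StJA) (z : EE n × ℝ) (φ : Fin n → Fin n → Fin n → Fin n → EE n × ℝ → ℝ)
    (h : ∀ i j k l, ContDiffAt ℝ 2 (φ i j k l) z) :
    (∀ m, jg (fun z => ∑ i, ∑ j, ∑ k, ∑ l, φ i j k l z) z m
      = ∑ i, ∑ j, ∑ k, ∑ l, jg (φ i j k l) z m) ∧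
    jh (fun z => ∑ i, ∑ j, ∑ k, ∑ l, φ i j k l z) z
      = ∑ i, ∑ j, ∑ k, ∑ l, jh (φ i j k l) z := by
  have hS := (hJA n ℝ z).2.2.2.2
  have c1 : ∀ i j k, ContDiffAt ℝ 2 (fun z => ∑ l, φ i j k l z) z := fun i j k =>
    ContDiffAt.sum fun l _ => h i j k l
  have c2 : ∀ i j, ContDiffAt ℝ 2 (fun z => ∑ k, ∑ l, φ i j k l z) z := fun i j =>
    ContDiffAt.sum fun k _ => c1 i j k
  have c3 : ∀ i, ContDiffAt ℝ 2 (fun z => ∑ j, ∑ k, ∑ l, φ i j k l z) z := fun i =>
    ContDiffAt.sum fun j _ => c2 i j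
  have s1 := hS n (fun i z => ∑ j, ∑ k, ∑ l, φ i j k l z) c3
  have s2 := fun i => hS n (fun j z => ∑ k, ∑ l, φ i j k l z) (c2 i)
  have s3 := fun i j => hS n (fun k z => ∑ l, φ i j k l z) (c1 i j)
  have s4 := fun i j k => hS n (fun l z => φ i j k l z) (h i j k)
  constructor
  · intro m
    rw [s1.1 m]
    refine Finset.sum_congr rfl fun i _ => ?_
    rw [(s2 i).1 m]
    refine Finset.sum_congr rfl fun j _ => ?_
    rw [(s3 i j).1 m]
    refine Finset.sum_congr rfl fun k _ => ?_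
    rw [(s4 i j k).1 m]
  · rw [s1.2]
    refine Finset.sum_congr rfl fun i _ => ?_
    rw [(s2 i).2]
    refine Finset.sum_congr rfl fun j _ => ?_
    rw [(s3 i j).2]
    refine Finset.sum_congr rfl fun k _ => ?_
    rw [(s4 i j k).2]

/-- G8. jets of `Y = |H|²` -/
theorem hG8 (hJA : StJA) (hJB : StJB) (_hG1 : StG1) (hG5 : StG5) (hG6 : StG6) : StG8 := by
  intro n N x₀ L u t₀ hu A T hA hT
  have g5 := hG5 n N x₀ L u t₀ hu
  have g6 := hG6 n N x₀ L u t₀ hu A T hA hT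
  have hB := (hJB n N ((0 : EE n), t₀)).1
  set z₀ : EE n × ℝ := (0, t₀) with hz₀
  set G : Fin n → Fin n → EE n × ℝ → ℝ := fun i j => GIf x₀ L u i j with hG
  set R : Fin n → Fin n → Fin n → Fin n → EE n × ℝ → ℝ := fun i j k l => Rf x₀ L u i j k l with hR
  have cG : ∀ i j, ContDiffAt ℝ 4 (G i j) z₀ := fun i j => (g5 i j).1
  have cG2 : ∀ i j, ContDiffAt ℝ 2 (G i j) z₀ := fun i j => (cG i j).of_le (by norm_num)
  have cR : ∀ i j k l, ContDiffAt ℝ 4 (R i j k l) z₀ := fun i j k l => (g6 i j k l).1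
  have cR2 : ∀ i j k l, ContDiffAt ℝ 2 (R i j k l) z₀ := fun i j k l => (cR i j k l).of_le (by norm_num)
  have vG : ∀ i j, G i j z₀ = (if i = j then (1 : ℝ) else 0) := fun i j => (g5 i j).2.1
  have dG : ∀ i j k, jg (G i j) z₀ k = 0 := fun i j => (g5 i j).2.2.1
  have hhG : ∀ i j, jh (G i j) z₀ = 2 * ∑ k, inner ℝ (A i k) (A j k) := fun i j => by
    rw [hA]
    exact (g5 i j).2.2.2
  have vR : ∀ i j k l, R i j k l z₀ = inner ℝ (A i j) (A k l) := fun i j k l => (g6 i j k l).2.1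
  have hY : Yf x₀ L u = fun z => ∑ i, ∑ j, ∑ k, ∑ l, (G i j z * G k l z) * R i j k l z :=
    Yf_eq x₀ L u
  have cGG : ∀ i j k l, ContDiffAt ℝ 4 (fun z => G i j z * G k l z) z₀ := fun i j k l =>
    (cG i j).mul (cG k l)
  have cGG2 : ∀ i j k l, ContDiffAt ℝ 2 (fun z => G i j z * G k l z) z₀ := fun i j k l =>
    (cGG i j k l).of_le (by norm_num)
  have cφ : ∀ i j k l, ContDiffAt ℝ 4 (fun z => (G i j z * G k l z) * R i j k l z) z₀ :=
    fun i j k l => (cGG i j k l).mul (cR i j k l)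
  have cφ2 : ∀ i j k l, ContDiffAt ℝ 2 (fun z => (G i j z * G k l z) * R i j k l z) z₀ :=
    fun i j k l => (cφ i j k l).of_le (by norm_num)
  have jGG : ∀ i j k l m, jg (fun z => G i j z * G k l z) z₀ m = 0 := fun i j k l m => by
    rw [(hB _ _ (cG2 i j) (cG2 k l)).1 m, dG, dG]
    ring
  have hGG : ∀ i j k l, jh (fun z => G i j z * G k l z) z₀
      = jh (G i j) z₀ * (if k = l then (1 : ℝ) else 0)
        + (if i = j then (1 : ℝ) else 0) * jh (G k l) z₀ := fun i j k l => by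
    rw [(hB _ _ (cG2 i j) (cG2 k l)).2, vG, vG]
    simp only [dG]
    simp
  have jφ : ∀ i j k l m, jg (fun z => (G i j z * G k l z) * R i j k l z) z₀ m
      = ((if i = j then (1 : ℝ) else 0) * (if k = l then (1 : ℝ) else 0)) * jg (R i j k l) z₀ m :=
    fun i j k l m => by
      rw [(hB _ _ (cGG2 i j k l) (cR2 i j k l)).1 m, jGG, vG, vG]
      ring
  have hφ : ∀ i j k l, jh (fun z => (G i j z * G k l z) * R i j k l z) z₀
      = (jh (G i j) z₀ * (if k = l then (1 : ℝ) else 0)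
        + (if i = j then (1 : ℝ) else 0) * jh (G k l) z₀) * inner ℝ (A i j) (A k l)
        + ((if i = j then (1 : ℝ) else 0) * (if k = l then (1 : ℝ) else 0)) * jh (R i j k l) z₀ :=
    fun i j k l => by
      rw [(hB _ _ (cGG2 i j k l) (cR2 i j k l)).2, hGG, vG, vG, vR]
      simp only [jGG]
      simp
  obtain ⟨hs1, hs2⟩ := jets_sum4 hJA z₀ (fun i j k l z => (G i j z * G k l z) * R i j k l z) cφ2
  refine ⟨?_, ?_, ?_, ?_⟩
  · rw [hY]
    refine ContDiffAt.sum fun i _ => ContDiffAt.sum fun j _ => ContDiffAt.sum fun k _ =>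
      ContDiffAt.sum fun l _ => (cφ i j k l).of_le (by norm_num)
  · rw [hY]
    simp only [vG, vR]
    rw [sum_delta4 (fun i j k l => inner ℝ (A i j) (A k l))]
    unfold YY Hv
    rw [← real_inner_self_eq_norm_sq, inner_sum_sum]
  · intro m
    rw [hY, hs1 m]
    simp only [jφ]
    rw [sum_delta4 (fun i j k l => jg (R i j k l) z₀ m)]
    have : ∀ i k, jg (R i i k k) z₀ m = inner ℝ (T i i m) (A k k) + inner ℝ (A i i) (T k k m) :=
      fun i k => (g6 i i k k).2.2.1 m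
    simp only [this]
    unfold gY Hv et
    simp only [Finset.sum_add_distrib]
    rw [← inner_sum_sum (fun i => T i i m) (fun k => A k k),
      ← inner_sum_sum (fun i => A i i) (fun k => T k k m), real_inner_comm]
    ring
  · rw [hY, hs2]
    simp only [hφ, Finset.sum_add_distrib]
    rw [sum_delta4 (fun i j k l => jh (R i j k l) z₀)]
    set g : Fin n → Fin n → ℝ := fun a b => ∑ m, inner ℝ (A a m) (A b m) with hg
    have hH : ∀ v, (inner ℝ v (Hv A) : ℝ) = ∑ k, inner ℝ v (A k k) := fun v => by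
      unfold Hv
      rw [inner_sum]
    have hH' : ∀ v, (inner ℝ (Hv A) v : ℝ) = ∑ k, inner ℝ (A k k) v := fun v => by
      unfold Hv
      rw [sum_inner]
    have T1 : ∑ i, ∑ j, ∑ k, ∑ l, (jh (G i j) z₀ * (if k = l then (1 : ℝ) else 0)
        + (if i = j then (1 : ℝ) else 0) * jh (G k l) z₀) * inner ℝ (A i j) (A k l)
        = 4 * ∑ a, ∑ b, g a b * inner ℝ (A a b) (Hv A) := by
      have e1 : ∑ i, ∑ j, ∑ k, ∑ l, (jh (G i j) z₀ * (if k = l then (1 : ℝ) else 0))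
          * inner ℝ (A i j) (A k l) = ∑ a, ∑ b, (2 * g a b) * inner ℝ (A a b) (Hv A) := by
        refine Finset.sum_congr rfl fun i _ => Finset.sum_congr rfl fun j _ => ?_
        rw [hhG i j, hH (A i j)]
        simp [hg, Finset.mul_sum]
      have e2 : ∑ i, ∑ j, ∑ k, ∑ l, ((if i = j then (1 : ℝ) else 0) * jh (G k l) z₀)
          * inner ℝ (A i j) (A k l) = ∑ a, ∑ b, (2 * g a b) * inner ℝ (A a b) (Hv A) := by
        rw [swap22]
        refine Finset.sum_congr rfl fun k _ => Finset.sum_congr rfl fun l _ => ?_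
        rw [hhG k l, real_inner_comm, hH' (A k l)]
        simp [hg, Finset.mul_sum]
      simp only [add_mul, Finset.sum_add_distrib]
      rw [e1, e2]
      simp only [mul_assoc, ← Finset.mul_sum]
      ring
    have T2 : ∑ i, ∑ k, jh (R i i k k) z₀
        = -2 * (∑ m, ‖et T m‖ ^ 2) + 2 * ZZ A - 4 * ∑ a, ∑ b, g a b * inner ℝ (A a b) (Hv A) := by
      have e0 : ∀ i k, jh (R i i k k) z₀ = -2 * (∑ m, inner ℝ (T i i m) (T k k m))
        + 2 * (∑ a, ∑ b, inner ℝ (A i i) (A a b) * inner ℝ (A k k) (A a b))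
        - 2 * (∑ a, ∑ b, inner ℝ (A a i) (A b i) * inner ℝ (A a b) (A k k))
        - 2 * (∑ a, ∑ b, inner ℝ (A a k) (A b k) * inner ℝ (A a b) (A i i)) :=
        fun i k => (g6 i i k k).2.2.2
      simp only [e0, Finset.sum_sub_distrib, Finset.sum_add_distrib, ← Finset.mul_sum]
      have a1 : ∑ i, ∑ k, ∑ m, (inner ℝ (T i i m) (T k k m) : ℝ) = ∑ m, ‖et T m‖ ^ 2 := by
        rw [swap21]
        refine Finset.sum_congr rfl fun m _ => ?_
        rw [← real_inner_self_eq_norm_sq]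
        unfold et
        rw [inner_sum_sum]
      have a2 : ∑ i, ∑ k, ∑ a, ∑ b, (inner ℝ (A i i) (A a b) * inner ℝ (A k k) (A a b) : ℝ)
          = ZZ A := by
        rw [swap22]
        unfold ZZ zz
        refine Finset.sum_congr rfl fun a _ => Finset.sum_congr rfl fun b _ => ?_
        rw [real_inner_comm, hH', ← Finset.sum_mul_sum, _root_.sq]
      have a3 : ∑ i, ∑ k, ∑ a, ∑ b, (inner ℝ (A a i) (A b i) * inner ℝ (A a b) (A k k) : ℝ)
          = ∑ a, ∑ b, g a b * inner ℝ (A a b) (Hv A) := by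
        rw [swap22]
        refine Finset.sum_congr rfl fun a _ => Finset.sum_congr rfl fun b _ => ?_
        rw [hH, ← Finset.sum_mul_sum]
      have a4 : ∑ i, ∑ k, ∑ a, ∑ b, (inner ℝ (A a k) (A b k) * inner ℝ (A a b) (A i i) : ℝ)
          = ∑ a, ∑ b, g a b * inner ℝ (A a b) (Hv A) := by
        rw [Finset.sum_comm]
        exact a3
      rw [a1, a2, a3, a4]
      ring
    rw [T1, T2]
    unfold Helper35.PI.hY
    ring

end Helper62.PI
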