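import Mathlib
import Pool.Agent.Helper35.PI.St1

/-!
Module LL4 of the project PI (problem MP_b2fa09_gt): the Li-Li inequality, vector valued form.
-/

namespace Helper62.PI

open Helper35.PI
open scoped BigOperators

variable {n N : ℕ}

/-- The Gram operator `v ↦ Σ_ij ⟨C_ij, v⟩ C_ij`. -/
noncomputable def gramOp (C : Fin n → Fin n → EE N) : EE N →ₗ[ℝ] EE N where
  toFun v := ∑ i, ∑ j, (inner ℝ (C i j) v) • C i j
  map_add' v w := by
    simp only [inner_add_right, add_smul, Finset.sum_add_distrib]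
  map_smul' r v := by
    simp only [inner_smul_right, mul_smul, Finset.smul_sum, RingHom.id_apply]

lemma gramOp_inner (C : Fin n → Fin n → EE N) (v w : EE N) :
    inner ℝ (gramOp C v) w = ∑ i, ∑ j, inner ℝ (C i j) v * inner ℝ (C i j) w := by
  simp only [gramOp, LinearMap.coe_mk, AddHom.coe_mk, sum_inner, real_inner_smul_left]

lemma gramOp_symm (C : Fin n → Fin n → EE N) : (gramOp C).IsSymmetric := by
  intro v w
  rw [gramOp_inner, real_inner_comm, gramOp_inner]
  refine Finset.sum_congr rfl fun i _ => Finset.sum_congr rfl fun j _ => ?_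
  ring

lemma swap6 (f : Fin n → Fin n → Fin n → Fin n → Fin N → Fin N → ℝ) :
    ∑ i, ∑ j, ∑ k, ∑ l, ∑ a, ∑ b, f i j k l a b
      = ∑ a, ∑ b, ∑ i, ∑ j, ∑ k, ∑ l, f i j k l a b := by
  have h1 : ∑ i, ∑ j, ∑ k, ∑ l, ∑ a, ∑ b, f i j k l a b
      = ∑ x : Fin n × Fin n × Fin n × Fin n, ∑ y : Fin N × Fin N,
        f x.1 x.2.1 x.2.2.1 x.2.2.2 y.1 y.2 := by
    simp only [Fintype.sum_prod_type]
  have h2 : ∑ a, ∑ b, ∑ i, ∑ j, ∑ k, ∑ l, f i j k l a b
      = ∑ y : Fin N × Fin N, ∑ x : Fin n × Fin n × Fin n × Fin n,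
        f x.1 x.2.1 x.2.2.1 x.2.2.2 y.1 y.2 := by
    simp only [Fintype.sum_prod_type]
  rw [h1, h2, Finset.sum_comm]

lemma sq4 (u : Fin n → Fin n → ℝ) :
    (∑ i, ∑ j, u i j) ^ 2 = ∑ i, ∑ j, ∑ k, ∑ l, u i j * u k l := by
  rw [_root_.sq]
  simp only [Finset.sum_mul]
  simp only [Finset.mul_sum]

lemma tr4 (A B C D : Matrix (Fin n) (Fin n) ℝ) :
    (A * (B * (C * D))).trace
      = ∑ i, ∑ j, ∑ k, ∑ l, A i j * (B j k * (C k l * D l i)) := by
  simp only [Matrix.trace, Matrix.diag_apply, Matrix.mul_apply, Finset.mul_sum]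

lemma fq_trace (P : Matrix (Fin n) (Fin n) ℝ) : fq P = (P * P.transpose).trace := by
  simp only [fq, Matrix.trace, Matrix.diag_apply, Matrix.mul_apply, Matrix.transpose_apply,
    _root_.sq]

lemma cmq_eq (X Y : Matrix (Fin n) (Fin n) ℝ) (hX : X.IsSymm) (hY : Y.IsSymm) :
    cmq X Y = 2 * ∑ i, ∑ j, ∑ k, ∑ l, (X i j * X j k * (Y k l * Y l i)
      - X i j * X k l * (Y j k * Y l i)) := by
  have h1 : cmq X Y = ((X * Y - Y * X) * (X * Y - Y * X).transpose).trace := by
    rw [← fq_trace]; rfl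
  have h2 : (X * Y - Y * X).transpose = Y * X - X * Y := by
    rw [Matrix.transpose_sub, Matrix.transpose_mul, Matrix.transpose_mul, hX.eq, hY.eq]
  have h3 : ((X * Y - Y * X) * (Y * X - X * Y)).trace
      = 2 * (X * (X * (Y * Y))).trace - 2 * (X * (Y * (X * Y))).trace := by
    have e1 : (X * Y * (Y * X)).trace = (X * (X * (Y * Y))).trace := by
      rw [show X * Y * (Y * X) = (X * Y * Y) * X by simp only [mul_assoc],
        Matrix.trace_mul_comm]
      simp only [mul_assoc]
    have e2 : (Y * X * (X * Y)).trace = (X * (X * (Y * Y))).trace := by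
      rw [show Y * X * (X * Y) = Y * (X * X * Y) by simp only [mul_assoc],
        Matrix.trace_mul_comm]
      simp only [mul_assoc]
    have e3 : (Y * X * (Y * X)).trace = (X * (Y * (X * Y))).trace := by
      rw [show Y * X * (Y * X) = Y * (X * Y * X) by simp only [mul_assoc],
        Matrix.trace_mul_comm]
      simp only [mul_assoc]
    have e4 : (X * Y * (X * Y)).trace = (X * (Y * (X * Y))).trace := by
      simp only [mul_assoc]
    rw [sub_mul, mul_sub, mul_sub, Matrix.trace_sub, Matrix.trace_sub, Matrix.trace_sub,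
      e1, e2, e3, e4]
    ring
  rw [h1, h2, h3, tr4, tr4, ← mul_sub, ← Finset.sum_sub_distrib]
  congr 1
  refine Finset.sum_congr rfl fun i _ => ?_
  rw [← Finset.sum_sub_distrib]
  refine Finset.sum_congr rfl fun j _ => ?_
  rw [← Finset.sum_sub_distrib]
  refine Finset.sum_congr rfl fun k _ => ?_
  rw [← Finset.sum_sub_distrib]
  refine Finset.sum_congr rfl fun l _ => ?_
  ring

/-- LL4. the Li-Li inequality, vector valued form -/
theorem hLL4 (h3 : StLL3) : StLL4 := by
  intro n N C hC
  have hfr : Module.finrank ℝ (EE N) = N := by simp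
  let b : OrthonormalBasis (Fin N) ℝ (EE N) := (gramOp_symm C).eigenvectorBasis hfr
  have hb : ∀ a, gramOp C (b a) = ((gramOp_symm C).eigenvalues hfr a) • b a := fun a =>
    (gramOp_symm C).apply_eigenvectorBasis hfr a
  let c : Fin N → Matrix (Fin n) (Fin n) ℝ := fun a => Matrix.of fun i j => inner ℝ (C i j) (b a)
  have hc : ∀ a i j, c a i j = inner ℝ (C i j) (b a) := fun a i j => rfl
  have hsym : ∀ a, (c a).IsSymm := fun a => by
    refine Matrix.IsSymm.ext fun i j => ?_
    rw [hc, hc, hC i j]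
  have hort : ∀ a a', a ≠ a' → ipm (c a) (c a') = 0 := fun a a' haa => by
    have h := gramOp_inner C (b a) (b a')
    rw [hb, real_inner_smul_left, b.orthonormal.2 haa, mul_zero] at h
    exact h.symm
  have hpar : ∀ x y : EE N, inner ℝ x y = ∑ a, inner ℝ x (b a) * inner ℝ y (b a) :=
    fun x y => by
      rw [← b.sum_inner_mul_inner x y]
      refine Finset.sum_congr rfl fun a _ => ?_
      rw [real_inner_comm y (b a)]
  have hin : ∀ i j k l, inner ℝ (C i j) (C k l) = ∑ a, c a i j * c a k l := fun i j k l =>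
    hpar _ _
  have hrq : rq C = ∑ a, fq (c a) := by
    have h1 : ∀ i j, ‖C i j‖ ^ 2 = ∑ a, c a i j ^ 2 := fun i j => by
      rw [← real_inner_self_eq_norm_sq, hin]
      refine Finset.sum_congr rfl fun a _ => ?_
      ring
    simp only [rq, fq, h1]
    have h2 : ∀ i, ∑ j, ∑ a, c a i j ^ 2 = ∑ a, ∑ j, c a i j ^ 2 := fun i => Finset.sum_comm
    simp only [h2]
    exact Finset.sum_comm
  have hS : Sq C = ∑ a, ∑ a', (ipm (c a) (c a') ^ 2 + cmq (c a) (c a')) := by
    have h1 : ∀ a a', ipm (c a) (c a') ^ 2 + cmq (c a) (c a')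
        = ∑ i, ∑ j, ∑ k, ∑ l, ((c a i j * c a k l) * (c a' i j * c a' k l)
          + 2 * (c a i j * c a j k * (c a' k l * c a' l i)
            - c a i j * c a k l * (c a' j k * c a' l i))) := fun a a' => by
      rw [cmq_eq _ _ (hsym a) (hsym a')]
      have h2 : ipm (c a) (c a') ^ 2
          = ∑ i, ∑ j, ∑ k, ∑ l, (c a i j * c a k l) * (c a' i j * c a' k l) := by
        rw [ipm, sq4]
        refine Finset.sum_congr rfl fun i _ => Finset.sum_congr rfl fun j _ =>
          Finset.sum_congr rfl fun k _ => Finset.sum_congr rfl fun l _ => ?_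
        ring
      simp only [h2, Finset.mul_sum, ← Finset.sum_add_distrib]
    simp only [h1]
    rw [← swap6 (fun i j k l a a' => ((c a i j * c a k l) * (c a' i j * c a' k l)
          + 2 * (c a i j * c a j k * (c a' k l * c a' l i)
            - c a i j * c a k l * (c a' j k * c a' l i))))]
    simp only [Sq]
    refine Finset.sum_congr rfl fun i _ => Finset.sum_congr rfl fun j _ =>
      Finset.sum_congr rfl fun k _ => Finset.sum_congr rfl fun l _ => ?_
    rw [hin i j k l, hin i j j k, hin k l l i, hin j k l i]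
    simp only [Finset.sum_add_distrib, ← Finset.mul_sum, Finset.sum_sub_distrib]
    rw [_root_.sq, Finset.sum_mul_sum, Finset.sum_mul_sum, Finset.sum_mul_sum]
    simp only [Finset.mul_sum]
  have h4 := h3 n N c hsym hort
  have h5 : ∑ a, ∑ a', ipm (c a) (c a') ^ 2 = ∑ a, fq (c a) ^ 2 := by
    refine Finset.sum_congr rfl fun a _ => ?_
    rw [Finset.sum_eq_single a]
    · congr 1
      simp only [ipm, fq, _root_.sq]
    · intro a' _ h
      rw [hort a a' (Ne.symm h)]
      norm_num
    · intro h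
      exact absurd (Finset.mem_univ a) h
  rw [hS, hrq]
  simp only [Finset.sum_add_distrib]
  rw [h5]
  linarith

end Helper62.PI
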